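import Pool.Agent.X125.NR.Base

/-!
# A bounded operator on `ℓ²(ℤ; ℓ¹(ℤ))` that is not dominated by a positive one
-/

namespace Pool.Agent.X125.NR
open scoped ENNReal

/-- signs -/
def sg (b : Bool) : ℂ := if b then 1 else -1

lemma norm_sg (b : Bool) : ‖sg b‖ = 1 := by cases b <;> simp [sg]

lemma rad : ∀ (n : ℕ) (c : Fin n → ℂ) (z : ℂ),
    ∑ s : Fin n → Bool, ‖z + ∑ j, sg (s j) * c j‖ ^ 2 = 2 ^ n * (‖z‖ ^ 2 + ∑ j, ‖c j‖ ^ 2) := by
  intro n
  induction n with
  | zero => intro c z; simp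
  | succ n ih =>
    intro c z
    rw [← (Fin.consEquiv (fun _ : Fin (n + 1) => Bool)).sum_comp, Fintype.sum_prod_type]
    have h : ∀ (b : Bool) (s : Fin n → Bool),
        z + ∑ j, sg ((Fin.consEquiv (fun _ : Fin (n + 1) => Bool)) (b, s) j) * c j
          = (z + sg b * c 0) + ∑ j : Fin n, sg (s j) * c j.succ := by
      intro b s
      rw [Fin.sum_univ_succ]
      simp [Fin.consEquiv, add_assoc]
    simp only [h, ih]
    rw [Fintype.sum_bool, Fin.sum_univ_succ]
    have hp := parallelogram_law_with_norm ℂ z (c 0)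
    simp only [sg, if_true, one_mul, Bool.false_eq_true, if_false, neg_mul, ← sub_eq_add_neg]
    have h2 : (2 : ℝ) ^ (n + 1) = 2 ^ n * 2 := pow_succ 2 n
    rw [h2]
    linear_combination (2 : ℝ) ^ n * hp

lemma norm_comb {ι' : Type} [Fintype ι'] (r : ι' → ℤ) (hr : Function.Injective r) (g : ι' → R) :
    ‖∑ s, (lp.single 2 (r s) (g s) : E)‖ ^ 2 = ∑ s, ‖g s‖ ^ 2 := by
  classical
  have h1 : ∑ s, (lp.single 2 (r s) (g s) : E)
      = ∑ i ∈ Finset.univ.image r, (lp.single 2 i (Function.extend r g 0 i) : E) := by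
    rw [Finset.sum_image (fun a _ b _ h => hr h)]
    exact Finset.sum_congr rfl fun s _ => by rw [hr.extend_apply]
  have h2 : ∑ s, ‖g s‖ ^ 2 = ∑ i ∈ Finset.univ.image r, ‖Function.extend r g 0 i‖ ^ 2 := by
    rw [Finset.sum_image (fun a _ b _ h => hr h)]
    exact Finset.sum_congr rfl fun s _ => by rw [hr.extend_apply]
  rw [h1, h2]
  have := lp.norm_sum_single (p := 2) p2 (fun i : ℤ => (Function.extend r g 0 i : R))
    (Finset.univ.image r)
  simpa using this

lemma norm_comb_del {ι' : Type} [Fintype ι'] (r : ι' → ℤ) (hr : Function.Injective r)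
    (g : ι' → ℂ) : ‖∑ s, g s • del (r s, 0)‖ ^ 2 = ∑ s, ‖g s‖ ^ 2 := by
  have h1 : ∀ s, g s • del (r s, 0)
      = (lp.single 2 (r s) (lp.single (E := fun _ : ℤ => ℂ) 1 0 (g s)) : E) := by
    intro s
    rw [del, ← lp.single_smul, ← lp.single_smul]; simp
  simp only [h1]
  rw [norm_comb r hr]
  refine Finset.sum_congr rfl fun s _ => ?_
  rw [lp.norm_single (by norm_num)]

lemma sum_rows_le {ι' : Type} [Fintype ι'] (r : ι' → ℤ) (hr : Function.Injective r) (f : E) :
    ∑ s, ‖iota f (r s, 0)‖ ^ 2 ≤ ‖f‖ ^ 2 := by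
  classical
  have h1 : ∑ s, ‖iota f (r s, 0)‖ ^ 2 = ∑ i ∈ Finset.univ.image r, ‖iota f (i, 0)‖ ^ 2 := by
    rw [Finset.sum_image (fun a _ b _ h => hr h)]
  rw [h1]
  refine le_trans (Finset.sum_le_sum fun i _ => ?_)
    (sum_le_hasSum (Finset.univ.image r) (fun _ _ => by positivity) (hasSum_E f))
  exact pow_le_pow_left₀ (norm_nonneg _)
    (lp.norm_apply_le_norm one_ne_zero (f i) 0) 2

/-- domain labels -/
def ek (k : ℕ) (j : Fin (64 ^ k)) : ℤ :=
  (Encodable.encode (⟨k, j⟩ : Σ k : ℕ, Fin (64 ^ k)) : ℤ)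

lemma ek_inj {k k' : ℕ} {j : Fin (64 ^ k)} {j' : Fin (64 ^ k')} (h : ek k j = ek k' j') :
    (⟨k, j⟩ : Σ k : ℕ, Fin (64 ^ k)) = ⟨k', j'⟩ := by
  unfold ek at h
  exact Encodable.encode_injective (by exact_mod_cast h)

lemma ek_injective (k : ℕ) : Function.Injective (ek k) := by
  intro j j' h
  have := ek_inj h
  simpa using this

/-- range labels -/
def rk (k : ℕ) (s : Fin (64 ^ k) → Bool) : ℤ := (Encodable.encode s : ℤ)

lemma rk_injective (k : ℕ) : Function.Injective (rk k) := by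
  intro s s' h
  unfold rk at h
  exact Encodable.encode_injective (by exact_mod_cast h)

/-- normalising constants -/
noncomputable def an (k : ℕ) : ℝ := (Real.sqrt (2 ^ (64 ^ k)))⁻¹

lemma an_pos (k : ℕ) : 0 < an k := by unfold an; positivity

lemma an_sq (k : ℕ) : an k ^ 2 * 2 ^ (64 ^ k) = 1 := by
  unfold an
  rw [inv_pow, Real.sq_sqrt (by positivity)]
  exact inv_mul_cancel₀ (by positivity)

/-- the blocks -/
noncomputable def Tk (k : ℕ) : E →L[ℂ] E :=
  ∑ s : Fin (64 ^ k) → Bool,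
    (∑ j : Fin (64 ^ k), ((an k : ℂ) * sg (s j)) • coord (ek k j, 0)).smulRight (del (rk k s, 0))

lemma Tk_apply (k : ℕ) (f : E) : Tk k f = ∑ s : Fin (64 ^ k) → Bool,
    (∑ j : Fin (64 ^ k), ((an k : ℂ) * sg (s j)) * iota f (ek k j, 0)) • del (rk k s, 0) := by
  simp [Tk, coord_apply]

lemma norm_Tk (k : ℕ) : ‖Tk k‖ ≤ 1 := by
  refine ContinuousLinearMap.opNorm_le_bound _ zero_le_one fun f => ?_
  rw [one_mul, ← sq_le_sq₀ (norm_nonneg _) (norm_nonneg _), Tk_apply,
    norm_comb_del _ (rk_injective k)]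
  have h1 : ∀ s : Fin (64 ^ k) → Bool,
      ‖∑ j : Fin (64 ^ k), ((an k : ℂ) * sg (s j)) * iota f (ek k j, 0)‖ ^ 2
        = an k ^ 2 * ‖(0 : ℂ) + ∑ j, sg (s j) * iota f (ek k j, 0)‖ ^ 2 := by
    intro s
    have e : ∑ j : Fin (64 ^ k), ((an k : ℂ) * sg (s j)) * iota f (ek k j, 0)
        = (an k : ℂ) * (0 + ∑ j, sg (s j) * iota f (ek k j, 0)) := by
      rw [zero_add, Finset.mul_sum]
      exact Finset.sum_congr rfl fun j _ => by ring
    rw [e, norm_mul, mul_pow, Complex.norm_real, Real.norm_eq_abs, sq_abs]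
  simp only [h1]
  rw [← Finset.mul_sum, rad, ← mul_assoc, an_sq, one_mul]
  simpa using sum_rows_le _ (ek_injective k) f

/-- the operator -/
noncomputable def T0 : E →L[ℂ] E := ∑' k : ℕ, ((1 / 2 : ℂ) ^ k) • Tk k

lemma half_summable {F : Type*} [NormedAddCommGroup F] [NormedSpace ℂ F] [CompleteSpace F]
    (x : ℕ → F) (hx : ∀ k, ‖x k‖ ≤ 1) : Summable fun k : ℕ => ((1 / 2 : ℂ) ^ k) • x k := by
  refine Summable.of_norm_bounded (g := fun k : ℕ => (1 / 2 : ℝ) ^ k)
    summable_geometric_two (fun k => ?_)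
  rw [norm_smul, norm_pow]
  have : ‖(1 / 2 : ℂ)‖ = 1 / 2 := by norm_num
  rw [this]
  have := hx k
  have h2 : (0:ℝ) ≤ (1 / 2) ^ k := by positivity
  nlinarith

lemma Tk_del (k : ℕ) (j : Fin (64 ^ k)) (k' : ℕ) (h : k' ≠ k) : Tk k' (del (ek k j, 0)) = 0 := by
  rw [Tk_apply]
  refine Finset.sum_eq_zero fun s _ => ?_
  rw [Finset.sum_eq_zero, zero_smul]
  intro j' _
  rw [iota_del, if_neg, mul_zero]
  intro hc
  have := ek_inj (congrArg Prod.fst hc)
  exact h (congrArg Sigma.fst this)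

lemma T0_del (k : ℕ) (j : Fin (64 ^ k)) (s : Fin (64 ^ k) → Bool) :
    ‖iota (T0 (del (ek k j, 0))) (rk k s, 0)‖ = (1 / 2) ^ k * an k := by
  have h1 := (half_summable Tk norm_Tk).hasSum.mapL
    (ContinuousLinearMap.apply ℂ E (del (ek k j, 0)))
  have h2 : T0 (del (ek k j, 0)) = ((1 / 2 : ℂ) ^ k) • Tk k (del (ek k j, 0)) := by
    refine (h1.unique ?_)
    refine hasSum_single k fun k' hk' => ?_
    simp [Tk_del k j k' hk']
  have h3 : iota (Tk k (del (ek k j, 0))) (rk k s, 0) = (an k : ℂ) * sg (s j) := by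
    rw [Tk_apply, map_sum, Finset.sum_apply, Finset.sum_eq_single s]
    · rw [map_smul, Pi.smul_apply, iota_del, if_pos rfl, smul_eq_mul, mul_one,
        Finset.sum_eq_single j]
      · rw [iota_del, if_pos rfl, mul_one]
      · intro j' _ hj'
        rw [iota_del, if_neg, mul_zero]
        intro hc
        exact hj' (ek_injective k (congrArg Prod.fst hc))
      · simp
    · intro s' _ hs'
      rw [map_smul, Pi.smul_apply, iota_del, if_neg, smul_zero]
      intro hc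
      exact hs' (rk_injective k (congrArg Prod.fst hc)).symm
    · simp
  rw [h2, map_smul, Pi.smul_apply, h3, smul_eq_mul, norm_mul, norm_mul, norm_sg, norm_pow,
    Complex.norm_real, Real.norm_eq_abs, abs_of_pos (an_pos k)]
  norm_num

/-- nonnegative elements -/
def NN (f : E) : Prop := ∀ p, 0 ≤ (iota f p).re ∧ (iota f p).im = 0

/-- test vectors -/
noncomputable def xk (k : ℕ) : E :=
  ∑ j : Fin (64 ^ k), (((1 / 8 : ℝ) ^ k : ℝ) : ℂ) • del (ek k j, 0)

lemma norm_xk (k : ℕ) : ‖xk k‖ ≤ 1 := by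
  have h : ‖xk k‖ ^ 2 = 1 := by
    rw [xk, norm_comb_del _ (ek_injective k)]
    simp only [Complex.norm_real, Real.norm_eq_abs]
    rw [Finset.sum_const, Finset.card_univ, Fintype.card_fin, nsmul_eq_mul]
    rw [abs_of_pos (by positivity), ← pow_mul, mul_comm k 2, pow_mul]
    push_cast
    rw [← mul_pow]
    norm_num
  nlinarith [norm_nonneg (xk k)]

lemma nn_del (s : ℤ × ℤ) : NN (del s) := by
  intro p
  rw [iota_del]
  split_ifs <;> simp

lemma nn_xk (k : ℕ) : NN (xk k) := by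
  intro p
  rw [xk, map_sum, Finset.sum_apply, Complex.re_sum, Complex.im_sum]
  have h0 : (0:ℝ) ≤ (1 / 8) ^ k := by positivity
  constructor
  · refine Finset.sum_nonneg fun j _ => ?_
    rw [map_smul, Pi.smul_apply, smul_eq_mul, Complex.re_ofReal_mul]
    exact mul_nonneg h0 (nn_del _ p).1
  · refine Finset.sum_eq_zero fun j _ => ?_
    rw [map_smul, Pi.smul_apply, smul_eq_mul, Complex.im_ofReal_mul, (nn_del _ p).2, mul_zero]

/-- the vector with infinite image -/
noncomputable def f0 : E := ∑' k : ℕ, ((1 / 2 : ℂ) ^ k) • xk k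

lemma f0_sub (k : ℕ) : NN (f0 - ((1 / 2 : ℂ) ^ k) • xk k) ∧ NN f0 := by
  have hs := (half_summable xk norm_xk).hasSum
  have e : ∀ (k : ℕ) (p : ℤ × ℤ), iota (((1 / 2 : ℂ) ^ k) • xk k) p
      = (((1 / 2 : ℝ) ^ k : ℝ) : ℂ) * iota (xk k) p := by
    intro k p
    rw [map_smul, Pi.smul_apply, smul_eq_mul]; push_cast; rfl
  have hc : ∀ p, HasSum (fun k => (((1 / 2 : ℝ) ^ k : ℝ) : ℂ) * iota (xk k) p) (iota f0 p) := by
    intro p
    have := hs.mapL (coord p)
    simp only [coord_apply, e] at this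
    exact this
  have hre : ∀ p, HasSum (fun k => (1 / 2 : ℝ) ^ k * (iota (xk k) p).re) (iota f0 p).re := by
    intro p
    have := Complex.hasSum_re (hc p)
    simpa only [Complex.re_ofReal_mul] using this
  have him : ∀ p, (iota f0 p).im = 0 := by
    intro p
    have := Complex.hasSum_im (hc p)
    simp only [Complex.im_ofReal_mul, (nn_xk _ p).2, mul_zero] at this
    exact this.unique hasSum_zero
  have hnn : ∀ k p, 0 ≤ (1 / 2 : ℝ) ^ k * (iota (xk k) p).re := fun k p =>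
    mul_nonneg (by positivity) (nn_xk k p).1
  refine ⟨fun p => ?_, fun p => ⟨(hre p).nonneg (fun k => hnn k p), him p⟩⟩
  rw [map_sub, Pi.sub_apply, e, Complex.sub_re, Complex.sub_im, Complex.re_ofReal_mul,
    Complex.im_ofReal_mul, him p, (nn_xk k p).2, mul_zero, sub_zero]
  refine ⟨?_, rfl⟩
  have := le_hasSum (hre p) k (fun k' _ => hnn k' p)
  linarith

/-- no positive linear map dominates `T0` -/
theorem not_dom (Q : E →ₗ[ℂ] E) (hQ : ∀ f, NN f → NN (Q f)) :
    ¬ ∀ f, NN f → ∀ p, ‖iota (T0 f) p‖ ≤ (iota (Q f) p).re := by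
  intro hd
  have key : ∀ k : ℕ, (4 : ℝ) ^ k ≤ ‖Q f0‖ ^ 2 := by
    intro k
    have h1 : ∀ s : Fin (64 ^ k) → Bool, 2 ^ k * an k ≤ (iota (Q f0) (rk k s, 0)).re := by
      intro s
      have h2 := (hQ _ (f0_sub k).1 (rk k s, 0)).1
      rw [map_sub, map_sub, Pi.sub_apply, Complex.sub_re] at h2
      have h3 : (iota (Q (((1 / 2 : ℂ) ^ k) • xk k)) (rk k s, 0)).re
          = (1 / 2) ^ k * ((1 / 8) ^ k *
            ∑ j : Fin (64 ^ k), (iota (Q (del (ek k j, 0))) (rk k s, 0)).re) := by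
        have e1 : ((1 / 2 : ℂ) ^ k) = (((1 / 2 : ℝ) ^ k : ℝ) : ℂ) := by push_cast; rfl
        have e2 : (iota (Q (xk k)) (rk k s, 0)).re
            = (1 / 8) ^ k * ∑ j : Fin (64 ^ k), (iota (Q (del (ek k j, 0))) (rk k s, 0)).re := by
          rw [xk, map_sum, map_sum, Finset.sum_apply, Complex.re_sum, Finset.mul_sum]
          refine Finset.sum_congr rfl fun j _ => ?_
          rw [map_smul, map_smul, Pi.smul_apply, smul_eq_mul, Complex.re_ofReal_mul]
        rw [map_smul, map_smul, Pi.smul_apply, smul_eq_mul, e1, Complex.re_ofReal_mul, e2]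
      have h4 : ∑ j : Fin (64 ^ k), ((1 / 2) ^ k * an k)
          ≤ ∑ j : Fin (64 ^ k), (iota (Q (del (ek k j, 0))) (rk k s, 0)).re := by
        refine Finset.sum_le_sum fun j _ => ?_
        rw [← T0_del k j s]
        exact hd _ (nn_del _) _
      rw [Finset.sum_const, Finset.card_univ, Fintype.card_fin, nsmul_eq_mul] at h4
      push_cast at h4
      rw [h3] at h2
      have h5 : (1 / 2 : ℝ) ^ k * ((1 / 8) ^ k * (64 ^ k * ((1 / 2) ^ k * an k)))
          = 2 ^ k * an k := by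
        have : (1 / 2 : ℝ) ^ k * ((1 / 8) ^ k * (64 ^ k * ((1 / 2) ^ k * an k)))
          = ((1 / 2) * (1 / 8) * 64 * (1 / 2)) ^ k * an k := by
          rw [mul_pow, mul_pow, mul_pow]; ring
        rw [this]; norm_num
      have h6 : (1 / 2 : ℝ) ^ k * ((1 / 8) ^ k * (64 ^ k * ((1 / 2) ^ k * an k)))
          ≤ (1 / 2) ^ k * ((1 / 8) ^ k *
            ∑ j : Fin (64 ^ k), (iota (Q (del (ek k j, 0))) (rk k s, 0)).re) := by
        gcongr
      linarith
    have h7 := sum_rows_le _ (rk_injective k) (Q f0)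
    have h8 : ∑ s : Fin (64 ^ k) → Bool, (2 ^ k * an k) ^ 2
        ≤ ∑ s, ‖iota (Q f0) (rk k s, 0)‖ ^ 2 := by
      refine Finset.sum_le_sum fun s _ => ?_
      refine pow_le_pow_left₀ (mul_nonneg (by positivity) (an_pos k).le) ?_ 2
      exact (h1 s).trans (Complex.re_le_norm _)
    rw [Finset.sum_const, Finset.card_univ, Fintype.card_fun, Fintype.card_bool,
      Fintype.card_fin, nsmul_eq_mul] at h8
    push_cast at h8
    have h9 : (2 : ℝ) ^ (64 ^ k) * (2 ^ k * an k) ^ 2 = 4 ^ k := by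
      rw [mul_pow, ← pow_mul, mul_comm k 2, pow_mul]
      have := an_sq k
      calc (2 : ℝ) ^ (64 ^ k) * ((2 ^ 2) ^ k * an k ^ 2)
          = (2 ^ 2) ^ k * (an k ^ 2 * 2 ^ (64 ^ k)) := by ring
        _ = 4 ^ k := by rw [this]; norm_num
    linarith
  obtain ⟨k, hk⟩ := pow_unbounded_of_one_lt (‖Q f0‖ ^ 2) (by norm_num : (1:ℝ) < 4)
  exact absurd (key k) (not_le.2 hk)

end Pool.Agent.X125.NR
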