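import Mathlib

/-!
# The mixed norm space `ℓ²(ℤ; ℓ¹(ℤ))`: coordinates, translations, point masses
-/

namespace Pool.Agent.X125.NR
open scoped ENNReal

/-- `ℓ¹(ℤ)` -/
noncomputable abbrev R := lp (fun _ : ℤ => ℂ) 1
/-- `ℓ²(ℤ; ℓ¹(ℤ))` -/
noncomputable abbrev E := lp (fun _ : ℤ => R) 2

lemma p1 : 0 < (1 : ℝ≥0∞).toReal := by simp
lemma p2 : 0 < (2 : ℝ≥0∞).toReal := by simp

lemma hasSum_R (r : R) : HasSum (fun j => ‖r j‖) ‖r‖ := by
  have := lp.hasSum_norm p1 r
  simpa using this

lemma norm_R (r : R) : ‖r‖ = ∑' j, ‖r j‖ := (hasSum_R r).tsum_eq.symm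

lemma hasSum_E (f : E) : HasSum (fun i => ‖f i‖ ^ 2) (‖f‖ ^ 2) := by
  have := lp.hasSum_norm p2 f
  simpa using this

/-- the function on `ℤ × ℤ` of an element of `E` -/
def iota : E →ₗ[ℂ] (ℤ × ℤ → ℂ) where
  toFun f p := (f p.1 : R) p.2
  map_add' _ _ := rfl
  map_smul' _ _ := rfl

lemma iota_apply (f : E) (p : ℤ × ℤ) : iota f p = (f p.1 : R) p.2 := rfl

lemma iota_inj : Function.Injective iota := by
  intro f g h
  ext i j
  exact congrFun h (i, j)

lemma iota_le (f : E) (p : ℤ × ℤ) : ‖iota f p‖ ≤ ‖f‖ :=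
  (lp.norm_apply_le_norm one_ne_zero (f p.1) p.2).trans
    (lp.norm_apply_le_norm two_ne_zero f p.1)

/-- coordinates as continuous functionals -/
noncomputable def coord (p : ℤ × ℤ) : E →L[ℂ] ℂ :=
  LinearMap.mkContinuous ((LinearMap.proj p).comp iota) 1 fun f => by
    simpa using iota_le f p

lemma coord_apply (p : ℤ × ℤ) (f : E) : coord p f = iota f p := rfl

/-- the translations of `ℓ¹(ℤ)` -/
noncomputable def shR (b : ℤ) : R →ₗᵢ[ℂ] R where
  toFun r := ⟨fun j => r (j - b), memℓp_gen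
    (((lp.memℓp r).summable p1).comp_injective (Equiv.subRight b).injective)⟩
  map_add' _ _ := rfl
  map_smul' _ _ := rfl
  norm_map' r := by
    rw [norm_R, norm_R]
    exact (Equiv.subRight b).tsum_eq (fun j => ‖r j‖)

lemma shR_apply (b : ℤ) (r : R) (j : ℤ) : shR b r j = r (j - b) := rfl

/-- the translations of `E` -/
noncomputable def tr (s : ℤ × ℤ) : E →ₗᵢ[ℂ] E where
  toFun f := ⟨fun i => shR s.2 (f (i - s.1)), memℓp_gen (by
    have := ((lp.memℓp f).summable p2).comp_injective (Equiv.subRight s.1).injective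
    refine this.congr fun i => ?_
    simp only [Function.comp_apply, Equiv.subRight_apply, LinearIsometry.norm_map])⟩
  map_add' _ _ := rfl
  map_smul' _ _ := rfl
  norm_map' f := by
    rw [← sq_eq_sq₀ (norm_nonneg _) (norm_nonneg _), ← (hasSum_E _).tsum_eq,
      ← (hasSum_E f).tsum_eq]
    rw [← (Equiv.subRight s.1).tsum_eq (fun i => ‖f i‖ ^ 2)]
    refine tsum_congr fun i => ?_
    show ‖shR s.2 (f (i - s.1))‖ ^ 2 = ‖f (i - s.1)‖ ^ 2
    rw [LinearIsometry.norm_map]

lemma iota_tr (s : ℤ × ℤ) (f : E) (p : ℤ × ℤ) : iota (tr s f) p = iota f (p - s) := rfl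

/-- point masses -/
noncomputable def del (s : ℤ × ℤ) : E :=
  lp.single 2 s.1 (lp.single (E := fun _ : ℤ => ℂ) 1 s.2 1)

lemma iota_del (s p : ℤ × ℤ) : iota (del s) p = if p = s then 1 else 0 := by
  obtain ⟨a, b⟩ := s
  obtain ⟨i, j⟩ := p
  rw [iota_apply, del]
  by_cases h : i = a
  · subst h
    rw [lp.single_apply_self]
    by_cases h' : j = b
    · subst h'; rw [lp.single_apply_self]; simp
    · rw [lp.single_apply_ne _ _ _ h']; simp [h']
  · rw [lp.single_apply_ne _ _ _ h]; simp [h]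

lemma norm_del (s : ℤ × ℤ) : ‖del s‖ = 1 := by
  rw [del, lp.norm_single (by norm_num), lp.norm_single (by norm_num)]
  simp

lemma ext_del {F : Type*} [NormedAddCommGroup F] [NormedSpace ℂ F] (T S : E →L[ℂ] F)
    (h : ∀ s, T (del s) = S (del s)) : T = S := by
  -- reduce to zero
  have key : ∀ U : E →L[ℂ] F, (∀ s, U (del s) = 0) → U = 0 := by
    intro U hU
    have h1 : ∀ (i : ℤ) (r : R), U (lp.single 2 i r) = 0 := by
      intro i r
      have hs := lp.hasSum_single (p := 1) (by norm_num) r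
      have hs2 := hs.mapL (U.comp (lp.singleContinuousLinearMap ℂ (fun _ : ℤ => R) 2 i))
      have h0 : ∀ j : ℤ, (U.comp (lp.singleContinuousLinearMap ℂ (fun _ : ℤ => R) 2 i))
          (lp.single 1 j (r j)) = 0 := by
        intro j
        have e : (lp.single 1 j (r j) : R)
            = (r j : ℂ) • (lp.single (E := fun _ : ℤ => ℂ) 1 j 1 : R) := by
          rw [← lp.single_smul]; simp
        have hd : U (lp.single 2 i (lp.single (E := fun _ : ℤ => ℂ) 1 j 1 : R)) = 0 := hU (i, j)
        rw [e, map_smul]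
        simp only [ContinuousLinearMap.comp_apply, lp.singleContinuousLinearMap_apply]
        rw [hd, smul_zero]
      simp only [h0] at hs2
      have := hs2.unique hasSum_zero
      simpa using this
    ext f
    have hs := (lp.hasSum_single (p := 2) (by norm_num) f).mapL U
    simp only [h1] at hs
    simpa using hs.unique hasSum_zero
  have := key (T - S) (fun s => by simp [h s])
  exact sub_eq_zero.mp this

end Pool.Agent.X125.NR
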