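import Pool.Agent.X125.NR.Base

/-!
# Translation-commuting operators on `ℓ²(ℤ; ℓ¹(ℤ))` have summable kernels
-/

namespace Pool.Agent.X125.NR
open scoped ENNReal

/-- translation as a continuous linear map -/
noncomputable def trL (s : ℤ × ℤ) : E →L[ℂ] E := (tr s).toContinuousLinearMap

lemma trL_apply (s : ℤ × ℤ) (f : E) : trL s f = tr s f := rfl

lemma norm_trL (s : ℤ × ℤ) : ‖trL s‖ ≤ 1 := LinearIsometry.norm_toContinuousLinearMap_le _

/-- the convolution operator with a summable kernel -/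
noncomputable def conv (ψ : ℤ × ℤ → ℂ) : E →L[ℂ] E := ∑' s, ψ s • trL s

lemma conv_summable {ψ : ℤ × ℤ → ℂ} (hψ : Summable fun s => ‖ψ s‖) :
    Summable fun s => ψ s • trL s :=
  Summable.of_norm_bounded hψ (fun s => by
    rw [norm_smul]
    nlinarith [norm_trL s, norm_nonneg (ψ s)])

lemma iota_conv {ψ : ℤ × ℤ → ℂ} (hψ : Summable fun s => ‖ψ s‖) (f : E) (p : ℤ × ℤ) :
    HasSum (fun s => ψ s * iota f (p - s)) (iota (conv ψ f) p) := by
  have h := (conv_summable hψ).hasSum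
  have h2 := h.mapL ((coord p).comp (ContinuousLinearMap.apply ℂ E f))
  simpa [conv, coord_apply, trL_apply, iota_tr] using h2

/-- the norm of a finite sum with disjoint supports in `ℓ¹` -/
lemma norm_sum_disj (J : Finset ℤ) (m : ℤ → R)
    (hm : ∀ b, ∀ j ∈ J, ∀ j' ∈ J, m j b ≠ 0 → m j' b ≠ 0 → j = j') :
    ‖∑ j ∈ J, m j‖ = ∑ j ∈ J, ‖m j‖ := by
  have h1 : HasSum (fun b => ∑ j ∈ J, ‖m j b‖) (∑ j ∈ J, ‖m j‖) :=
    hasSum_sum fun j _ => hasSum_R (m j)
  have h2 := hasSum_R (∑ j ∈ J, m j)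
  refine h2.unique ?_
  convert h1 using 1
  funext b
  rw [lp.coeFn_sum, Finset.sum_apply]
  by_cases h : ∃ j ∈ J, m j b ≠ 0
  · obtain ⟨j, hj, hjb⟩ := h
    have h0 : ∀ j' ∈ J, j' ≠ j → m j' b = 0 := by
      intro j' hj' hne
      by_contra hc
      exact hne (hm b j' hj' j hj hc hjb)
    rw [Finset.sum_eq_single_of_mem j hj h0,
      Finset.sum_eq_single_of_mem j hj (fun j' hj' hne => by rw [h0 j' hj' hne, norm_zero])]
  · push Not at h
    rw [Finset.sum_eq_zero h, Finset.sum_eq_zero (fun j hj => by rw [h j hj, norm_zero]), norm_zero]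

/-- truncation in `ℓ¹` -/
noncomputable def tru (B : ℤ) (r : R) : R :=
  ∑ b ∈ Finset.Icc (-B) B, lp.single (E := fun _ : ℤ => ℂ) 1 b (r b)

lemma tru_apply (B : ℤ) (r : R) (b : ℤ) : tru B r b = if b ∈ Finset.Icc (-B) B then r b else 0 := by
  rw [tru, lp.coeFn_sum, Finset.sum_apply]
  simp only [lp.coeFn_single]
  rw [Finset.sum_pi_single]

lemma exists_tru (A : Finset ℤ) (Φ : ℤ → R) {ε : ℝ} (hε : 0 < ε) :
    ∃ B : ℤ, 0 ≤ B ∧ ∀ a ∈ A, ‖Φ a - tru B (Φ a)‖ < ε := by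
  have h : ∀ a : ℤ, ∃ s : Finset ℤ, ∀ t, s ⊆ t →
      ‖Φ a - ∑ b ∈ t, lp.single (E := fun _ : ℤ => ℂ) 1 b (Φ a b)‖ < ε := by
    intro a
    have hs := lp.hasSum_single (p := 1) (by norm_num) (Φ a)
    rw [HasSum, SummationFilter.unconditional_filter, Metric.tendsto_atTop] at hs
    obtain ⟨s, hs⟩ := hs ε hε
    refine ⟨s, fun t ht => ?_⟩
    have := hs t ht
    rwa [dist_comm, dist_eq_norm] at this
  choose s hs using h
  let F : Finset ℤ := A.biUnion s
  refine ⟨∑ b ∈ F, |b|, Finset.sum_nonneg fun _ _ => abs_nonneg _, fun a ha => ?_⟩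
  refine hs a _ fun b hb => ?_
  have hbF : b ∈ F := Finset.mem_biUnion.2 ⟨a, ha, hb⟩
  have : |b| ≤ ∑ b ∈ F, |b| := Finset.single_le_sum (f := fun b : ℤ => |b|)
    (fun _ _ => abs_nonneg _) hbF
  rw [Finset.mem_Icc]
  constructor
  · linarith [neg_abs_le b]
  · linarith [le_abs_self b]

section kernel

variable (T : E →L[ℂ] E) (hT : ∀ s p, iota (T (del s)) p = iota (T (del 0)) (p - s))
include hT

lemma row (s : ℤ × ℤ) (i : ℤ) : (T (del s) : E) i = shR s.2 ((T (del 0) : E) (i - s.1)) := by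
  ext b
  exact hT s (i, b)

lemma estimate (K N : ℕ) (hKN : 2 * K ≤ N) (δ : ℝ) (hδ : 0 < δ)
    (hS : δ ≤ ∑ a ∈ Finset.Icc (-(K : ℤ)) K, ‖(T (del 0) : E) a‖) :
    ((N : ℝ) + 1 - 2 * K) * ((∑ a ∈ Finset.Icc (-(K : ℤ)) K, ‖(T (del 0) : E) a‖) - δ) ^ 2
      ≤ ‖T‖ ^ 2 * ((N : ℝ) + 1) := by
  set Φ : E := T (del 0) with hΦ
  set S := ∑ a ∈ Finset.Icc (-(K : ℤ)) K, ‖Φ a‖ with hSdef
  set J : Finset ℤ := Finset.Icc 0 (N : ℤ) with hJ
  have hJcard : (J.card : ℝ) = N + 1 := by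
    rw [hJ, Int.card_Icc]; simp
  have hε : 0 < δ / (2 * ((N : ℝ) + 1)) := by positivity
  obtain ⟨B, hB0, hB⟩ := exists_tru (Finset.Icc (-(N : ℤ)) N) (fun a => Φ a) hε
  set t : ℤ → ℤ := fun j => (2 * B + 1) * j with ht
  set f : E := ∑ j ∈ J, del (j, t j) with hf
  have hfn : ‖f‖ ^ 2 = (N : ℝ) + 1 := by
    have := lp.norm_sum_single (p := 2) p2
      (fun j : ℤ => (lp.single (E := fun _ : ℤ => ℂ) 1 (t j) 1 : R)) J
    have h2 : ∀ j, ‖(lp.single (E := fun _ : ℤ => ℂ) 1 (t j) 1 : R)‖ = 1 := fun j => by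
      rw [lp.norm_single (by norm_num)]; simp
    simp only [h2] at this
    rw [← hJcard]
    simpa [hf, del] using this
  -- rows of T f
  have hrow : ∀ i ∈ Finset.Icc (K : ℤ) (N - K), S - δ ≤ ‖(T f : E) i‖ := by
    intro i hi
    rw [Finset.mem_Icc] at hi
    have h1 : (T f : E) i = ∑ j ∈ J, shR (t j) (Φ (i - j)) := by
      rw [hf, map_sum, lp.coeFn_sum, Finset.sum_apply]
      exact Finset.sum_congr rfl fun j _ => row T hT (j, t j) i
    have hm : ‖∑ j ∈ J, shR (t j) (tru B (Φ (i - j)))‖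
        = ∑ j ∈ J, ‖shR (t j) (tru B (Φ (i - j)))‖ := by
      refine norm_sum_disj J (fun j => shR (t j) (tru B (Φ (i - j)))) ?_
      intro b j _ j' _ h1 h2
      simp only [shR_apply, tru_apply] at h1 h2
      have h1' : b - t j ∈ Finset.Icc (-B) B := by
        by_contra hc; simp [hc] at h1
      have h2' : b - t j' ∈ Finset.Icc (-B) B := by
        by_contra hc; simp [hc] at h2
      rw [Finset.mem_Icc] at h1' h2'
      by_contra hne
      have h3 : |(2 * B + 1) * (j - j')| ≤ 2 * B := by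
        rw [abs_le]; simp only [ht] at h1' h2'
        constructor <;> nlinarith
      have h4 : 1 ≤ |j - j'| := Int.one_le_abs (sub_ne_zero.2 hne)
      rw [abs_mul, abs_of_pos (by linarith : (0:ℤ) < 2 * B + 1)] at h3
      nlinarith
    have he : ∀ j ∈ J, ‖Φ (i - j) - tru B (Φ (i - j))‖ ≤ δ / (2 * ((N : ℝ) + 1)) := by
      intro j hj
      rw [hJ, Finset.mem_Icc] at hj
      refine (hB (i - j) ?_).le
      rw [Finset.mem_Icc]
      constructor <;> omega
    have hsplit : ∑ j ∈ J, shR (t j) (Φ (i - j)) = ∑ j ∈ J, shR (t j) (tru B (Φ (i - j)))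
        + ∑ j ∈ J, shR (t j) (Φ (i - j) - tru B (Φ (i - j))) := by
      rw [← Finset.sum_add_distrib]
      refine Finset.sum_congr rfl fun j _ => ?_
      rw [map_sub]; abel
    have he2 : ‖∑ j ∈ J, shR (t j) (Φ (i - j) - tru B (Φ (i - j)))‖ ≤ δ / 2 := by
      refine (norm_sum_le _ _).trans ?_
      simp only [LinearIsometry.norm_map]
      refine (Finset.sum_le_sum he).trans ?_
      rw [Finset.sum_const, nsmul_eq_mul, hJcard]
      refine le_of_eq ?_
      field_simp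
    have he3 : ∑ j ∈ J, ‖Φ (i - j)‖ - δ / 2 ≤ ∑ j ∈ J, ‖shR (t j) (tru B (Φ (i - j)))‖ := by
      simp only [LinearIsometry.norm_map]
      have : ∑ j ∈ J, (‖Φ (i - j)‖ - δ / (2 * ((N : ℝ) + 1)))
          ≤ ∑ j ∈ J, ‖tru B (Φ (i - j))‖ := by
        refine Finset.sum_le_sum fun j hj => ?_
        have h5 := he j hj
        have h6 := norm_sub_norm_le (Φ (i - j)) (tru B (Φ (i - j)))
        linarith
      rw [Finset.sum_sub_distrib, Finset.sum_const, nsmul_eq_mul, hJcard] at this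
      have h7 : ((N : ℝ) + 1) * (δ / (2 * ((N : ℝ) + 1))) = δ / 2 := by field_simp
      linarith
    have he4 : S ≤ ∑ j ∈ J, ‖Φ (i - j)‖ := by
      have : S = ∑ j ∈ (Finset.Icc (-(K : ℤ)) K).image (fun a => i - a), ‖Φ (i - j)‖ := by
        rw [Finset.sum_image (fun a _ b _ h => by simpa using h)]
        exact Finset.sum_congr rfl fun a _ => by simp
      rw [this]
      refine Finset.sum_le_sum_of_subset_of_nonneg ?_ fun _ _ _ => norm_nonneg _
      intro j hj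
      rw [Finset.mem_image] at hj
      obtain ⟨a, ha, rfl⟩ := hj
      rw [Finset.mem_Icc] at ha
      rw [hJ, Finset.mem_Icc]
      constructor <;> omega
    rw [h1, hsplit]
    have h8 := norm_sub_le (∑ j ∈ J, shR (t j) (tru B (Φ (i - j)))
        + ∑ j ∈ J, shR (t j) (Φ (i - j) - tru B (Φ (i - j))))
        (∑ j ∈ J, shR (t j) (Φ (i - j) - tru B (Φ (i - j))))
    rw [add_sub_cancel_right, hm] at h8
    linarith
  have hTf : ‖T f‖ ^ 2 ≤ ‖T‖ ^ 2 * ((N : ℝ) + 1) := by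
    rw [← hfn, ← mul_pow]
    exact pow_le_pow_left₀ (norm_nonneg _) (T.le_opNorm f) 2
  refine le_trans ?_ hTf
  have h9 : ∑ i ∈ Finset.Icc (K : ℤ) (N - K), ‖(T f : E) i‖ ^ 2 ≤ ‖T f‖ ^ 2 :=
    sum_le_hasSum _ (fun _ _ => by positivity) (hasSum_E (T f))
  refine le_trans ?_ h9
  have h10 : ((Finset.Icc (K : ℤ) (N - K)).card : ℝ) = (N : ℝ) + 1 - 2 * K := by
    rw [Int.card_Icc]
    have : (((N : ℤ) - K + 1 - K).toNat : ℤ) = (N : ℤ) + 1 - 2 * K := by omega
    exact_mod_cast this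
  calc ((N : ℝ) + 1 - 2 * K) * (S - δ) ^ 2
      = ∑ i ∈ Finset.Icc (K : ℤ) (N - K), (S - δ) ^ 2 := by
        rw [Finset.sum_const, nsmul_eq_mul, h10]
    _ ≤ _ := Finset.sum_le_sum fun i hi =>
        pow_le_pow_left₀ (by linarith) (hrow i hi) 2

lemma partial_sum (K : ℕ) : ∑ a ∈ Finset.Icc (-(K : ℤ)) K, ‖(T (del 0) : E) a‖ ≤ ‖T‖ := by
  by_contra hc
  push Not at hc
  set S := ∑ a ∈ Finset.Icc (-(K : ℤ)) K, ‖(T (del 0) : E) a‖ with hS
  have hT0 := norm_nonneg T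
  set S' := (S + ‖T‖) / 2 with hS'
  have h1 : ‖T‖ < S' := by rw [hS']; linarith
  have h2 : ‖T‖ ^ 2 < S' ^ 2 := by nlinarith
  obtain ⟨n, hn⟩ := exists_nat_gt ((2 * K * S' ^ 2) / (S' ^ 2 - ‖T‖ ^ 2))
  have h3 : 0 < S' ^ 2 - ‖T‖ ^ 2 := by linarith
  rw [div_lt_iff₀ h3] at hn
  have h4 := estimate T hT K (n + 2 * K) (by omega) (S - S') (by rw [hS']; linarith)
    (by rw [hS']; linarith)
  have h5 : S - (S - S') = S' := by ring
  rw [← hS, h5] at h4
  push_cast at h4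
  nlinarith [sq_nonneg S', (Nat.cast_nonneg K : (0:ℝ) ≤ K)]

lemma kernel_summable : Summable fun p => ‖iota (T (del 0)) p‖ := by
  have h1 : Summable fun a => ‖(T (del 0) : E) a‖ := by
    refine summable_of_sum_le (c := ‖T‖) (fun _ => norm_nonneg _) fun s => ?_
    obtain ⟨K, hK⟩ : ∃ K : ℕ, s ⊆ Finset.Icc (-(K : ℤ)) K := by
      refine ⟨(∑ b ∈ s, |b|).toNat, fun b hb => ?_⟩
      have h0 : |b| ≤ ∑ b ∈ s, |b| := Finset.single_le_sum (f := fun b : ℤ => |b|)
        (fun _ _ => abs_nonneg _) hb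
      have h0' : 0 ≤ ∑ b ∈ s, |b| := Finset.sum_nonneg fun _ _ => abs_nonneg _
      rw [Finset.mem_Icc, Int.toNat_of_nonneg h0']
      constructor
      · linarith [neg_abs_le b]
      · linarith [le_abs_self b]
    exact (Finset.sum_le_sum_of_subset_of_nonneg hK fun _ _ _ => norm_nonneg _).trans
      (partial_sum T hT K)
  rw [summable_prod_of_nonneg (fun _ => norm_nonneg _)]
  refine ⟨fun a => (hasSum_R ((T (del 0) : E) a)).summable, ?_⟩
  refine h1.congr fun a => ?_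
  exact (hasSum_R ((T (del 0) : E) a)).tsum_eq.symm

lemma eq_conv : T = conv (iota (T (del 0))) := by
  refine ext_del _ _ fun s => ?_
  refine iota_inj ?_
  funext p
  rw [hT s p]
  have h := iota_conv (kernel_summable T hT) (del s) p
  refine (h.unique ?_).symm
  have : HasSum (fun u => iota (T (del 0)) u * iota (del s) (p - u))
      (iota (T (del 0)) (p - s) * iota (del s) (p - (p - s))) := by
    refine hasSum_single (p - s) fun u hu => ?_
    rw [iota_del, if_neg, mul_zero]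
    intro h
    apply hu
    rw [← h]; abel
  rw [iota_del, if_pos (by abel), mul_one] at this
  exact this

end kernel

end Pool.Agent.X125.NR
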